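import Mathlib
import Pool.Agent.Lib.MP_67c6ba_gt.TorusDuality

/-!
# The real line is not S-separable

A topological group `G` is S-separable if for every (Hausdorff) topological group `H` all of whose
closed subgroups are separable, every closed subgroup of `G × H` is separable.

We prove (in ZFC, no extra hypotheses) that the additive group `ℝ` is not S-separable.

Let `b j` (`j ∈ J`, `J` uncountable) be `ℚ`-linearly independent reals, `A` the free abelian group
on `J`, `f : A → ℝ`, `f a = ∑ a j * b j`, and let `h : A → (ℝ/ℤ)^J` be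
`h a j = b j * f a + a j / 2` (without the term `a j / 2` for two fixed indices).
The group `H = h(A)` is a counterexample: every subgroup of `H` is separable, but
`{(f a, h a)}` is a closed non-separable subgroup of `ℝ × H`.
-/

open TopologicalSpace Set
open Pool.Agent.Lib.MP_67c6ba_gt

universe u v

namespace Pool.Agent.Results.MP_67c6ba_gt.RealNotSSeparable

/-- A (Hausdorff) topological group `G`, written additively, is *S-separable* if for every
Hausdorff topological group `H` such that every closed subgroup of `H` is separable, every closed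
subgroup of the product group `G × H` is separable.  (Groups are written additively but are not
assumed to be commutative.) -/
def SSeparable (G : Type u) [AddGroup G] [TopologicalSpace G] : Prop :=
  ∀ (H : Type v) [AddGroup H] [TopologicalSpace H] [IsTopologicalAddGroup H] [T2Space H],
    (∀ K : AddSubgroup H, IsClosed (K : Set H) → SeparableSpace K) →
      ∀ L : AddSubgroup (G × H), IsClosed (L : Set (G × H)) → SeparableSpace L

section Construction

variable {J : Type v} (b : J → ℝ) (j₀ j₁ : J)

/-- The embedding of the free abelian group on `J` in `ℝ`. -/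
noncomputable def f : (J →₀ ℤ) →+ ℝ :=
  (Finsupp.linearCombination ℤ b).toAddMonoidHom

lemma f_apply (a : J →₀ ℤ) : f b a = a.sum fun j k => (k : ℝ) * b j := by
  simp [f, Finsupp.linearCombination_apply, zsmul_eq_mul]

/-- The element `1/2` of the circle. -/
noncomputable def half : UnitAddCircle := ((1 / 2 : ℝ) : UnitAddCircle)

lemma coe_eq_zero_iff (x : ℝ) : ((x : ℝ) : UnitAddCircle) = 0 ↔ ∃ n : ℤ, (n : ℝ) = x := by
  rw [AddCircle.coe_eq_zero_iff]
  simp

lemma half_ne_zero : half ≠ 0 := by
  unfold half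
  rw [Ne, coe_eq_zero_iff]
  rintro ⟨n, hn⟩
  have h2 : (2 * n : ℤ) = 1 := by
    have : (2 * (n : ℝ)) = 1 := by rw [hn]; norm_num
    exact_mod_cast this
  omega

open Classical in
/-- The perturbation term. -/
noncomputable def psi (a : J →₀ ℤ) (j : J) : UnitAddCircle :=
  if j = j₀ ∨ j = j₁ then 0 else a j • half

/-- The homomorphism `h`. -/
noncomputable def h : (J →₀ ℤ) →+ (J → UnitAddCircle) where
  toFun a j := ((b j * f b a : ℝ) : UnitAddCircle) + psi j₀ j₁ a j
  map_zero' := by
    ext j
    simp [psi]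
  map_add' := by
    intro a a'
    ext j
    simp only [psi, map_add, Pi.add_apply, Finsupp.add_apply, mul_add]
    rw [AddCircle.coe_add]
    split_ifs
    · abel
    · rw [add_smul]; abel

lemma h_apply (a : J →₀ ℤ) (j : J) :
    h b j₀ j₁ a j = ((b j * f b a : ℝ) : UnitAddCircle) + psi j₀ j₁ a j := rfl

variable {b} (hb : LinearIndependent ℚ b)

include hb

lemma f_injective : Function.Injective (f b) := by
  have : LinearIndependent ℤ b := by
    rw [LinearIndependent.iff_fractionRing ℤ ℚ]
    exact hb
  exact this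

omit hb in
/-- If `d` is supported off the support of `a`, then the pairing with `h a` is given by `f`. -/
lemma pair_h_of_disjoint (d a : J →₀ ℤ) (hd : ∀ j, d j ≠ 0 → a j = 0) :
    pair d (h b j₀ j₁ a) = ((f b d * f b a : ℝ) : UnitAddCircle) := by
  classical
  have : ∀ j ∈ d.support, d j • (h b j₀ j₁ a j) = (((d j : ℝ) * b j * f b a : ℝ) : UnitAddCircle) := by
    intro j hj
    have hj' : a j = 0 := hd j (by simpa using hj)
    rw [h_apply]
    have : psi j₀ j₁ a j = 0 := by simp [psi, hj']
    rw [this, add_zero, ← AddCircle.coe_zsmul, zsmul_eq_mul, mul_assoc]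
  unfold pair Finsupp.sum
  rw [Finset.sum_congr rfl this, f_apply b d, Finsupp.sum, Finset.sum_mul]
  exact (map_sum (QuotientAddGroup.mk' (AddSubgroup.zmultiples (1 : ℝ))) _ _).symm

omit hb in
/-- A subgroup generated by a countable set is countable. -/
lemma countable_closure {C : Set (J →₀ ℤ)} (hC : C.Countable) :
    ((AddSubgroup.closure C : AddSubgroup (J →₀ ℤ)) : Set (J →₀ ℤ)).Countable := by
  have : Countable C := hC.to_subtype
  let g : (C →₀ ℤ) →ₗ[ℤ] (J →₀ ℤ) := Finsupp.linearCombination ℤ (fun c : C => (c : J →₀ ℤ))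
  have hle : (AddSubgroup.closure C : AddSubgroup (J →₀ ℤ)) ≤ g.toAddMonoidHom.range := by
    rw [AddSubgroup.closure_le]
    intro c hc
    refine ⟨Finsupp.single ⟨c, hc⟩ 1, ?_⟩
    simp [g]
  refine Set.Countable.mono (fun x hx => hle hx) ?_
  rw [AddMonoidHom.coe_range]
  exact Set.countable_range _

/-- The annihilator of `h(L)` is countable when `L` is countable and `f(L)` is dense. -/
lemma countable_ann (L : AddSubgroup (J →₀ ℤ)) (hL : (L : Set (J →₀ ℤ)).Countable)
    (hdense : Dense (f b '' (L : Set (J →₀ ℤ)))) :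
    {n : J →₀ ℤ | ∀ a ∈ L, pair n (h b j₀ j₁ a) = 0}.Countable := by
  classical
  set S : Set J := ⋃ a ∈ (L : Set (J →₀ ℤ)), ((a.support : Finset J) : Set J) with hS
  have hScount : S.Countable := by
    refine hL.biUnion ?_
    intro a _
    exact a.support.countable_toSet
  have : Countable S := hScount.to_subtype
  refine Set.MapsTo.countable_of_injOn (f := fun n : J →₀ ℤ => n.subtypeDomain (· ∈ S))
    (t := (Set.univ : Set (S →₀ ℤ))) (fun _ _ => trivial) ?_ (Set.to_countable _)
  intro n hn m hm hnm
  have hnm' : ∀ j ∈ S, n j = m j := by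
    intro j hj
    have := DFunLike.congr_fun hnm (⟨j, hj⟩ : S)
    simpa using this
  set d := n - m with hd
  have hd0 : ∀ j ∈ S, d j = 0 := by
    intro j hj
    simp [hd, hnm' j hj]
  have hdpair : ∀ a ∈ L, pair d (h b j₀ j₁ a) = 0 := by
    intro a ha
    rw [hd, pair_sub_left, hn a ha, hm a ha, sub_zero]
  have hzero : ∀ a ∈ L, ((f b d * f b a : ℝ) : UnitAddCircle) = 0 := by
    intro a ha
    rw [← pair_h_of_disjoint j₀ j₁ d a, hdpair a ha]
    intro j hj
    by_contra hne
    apply hj
    apply hd0
    rw [hS]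
    simp only [mem_iUnion]
    exact ⟨a, ha, by simpa using hne⟩
  have hall : ∀ t : ℝ, ((f b d * t : ℝ) : UnitAddCircle) = 0 := by
    have hcont : Continuous fun t : ℝ => ((f b d * t : ℝ) : UnitAddCircle) :=
      (AddCircle.continuous_mk' (1 : ℝ)).comp (continuous_const.mul continuous_id)
    have heq : (fun t : ℝ => ((f b d * t : ℝ) : UnitAddCircle)) = fun _ => 0 := by
      refine Continuous.ext_on hdense hcont continuous_const ?_
      rintro - ⟨a, ha, rfl⟩
      exact hzero a ha
    intro t
    exact congrFun heq t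
  have hfd : f b d = 0 := by
    by_contra hne
    have := hall (1 / 2 / f b d)
    rw [mul_div_cancel₀ _ hne] at this
    exact half_ne_zero this
  have hd' : d = 0 := by
    apply f_injective hb
    rw [hfd, map_zero]
  exact sub_eq_zero.mp hd'

/-- Every subgroup of `H` is separable. -/
lemma separable_image (L : AddSubgroup (J →₀ ℤ)) :
    ∃ C : Set (J →₀ ℤ), C.Countable ∧ C ⊆ L ∧
      h b j₀ j₁ '' (L : Set (J →₀ ℤ)) ⊆ closure (h b j₀ j₁ '' C) := by
  classical
  rcases AddSubgroup.dense_or_cyclic (L.map (f b)) with hdense | ⟨r, hr⟩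
  swap
  · -- cyclic case: `L` is countable
    refine ⟨L, ?_, Subset.rfl, subset_closure⟩
    refine Set.MapsTo.countable_of_injOn (f := f b)
      (t := ((AddSubgroup.closure {r} : AddSubgroup ℝ) : Set ℝ)) ?_
      (f_injective hb).injOn ?_
    · intro a ha
      rw [← hr]
      exact ⟨a, ha, rfl⟩
    · rw [← AddSubgroup.zmultiples_eq_closure]
      have : ((AddSubgroup.zmultiples r : AddSubgroup ℝ) : Set ℝ) = Set.range (fun n : ℤ => n • r) := by
        ext x; simp [AddSubgroup.mem_zmultiples_iff]
      rw [this]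
      exact Set.countable_range _
  · -- dense case
    have hdense' : Dense (f b '' (L : Set (J →₀ ℤ))) := by
      simpa using hdense
    obtain ⟨T, hTsub, hTc, hTd⟩ := hdense'.exists_countable_dense_subset
    -- choose preimages
    have hpre : ∀ t ∈ T, ∃ a ∈ L, f b a = t := by
      intro t ht
      obtain ⟨a, ha, hat⟩ := hTsub ht
      exact ⟨a, ha, hat⟩
    choose! g hgL hgT using hpre
    set C₀ : Set (J →₀ ℤ) := g '' T with hC₀
    have hC₀c : C₀.Countable := hTc.image g
    have hC₀L : C₀ ⊆ L := by
      rintro - ⟨t, ht, rfl⟩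
      exact hgL t ht
    set L₀ := AddSubgroup.closure C₀ with hL₀
    have hL₀c : (L₀ : Set (J →₀ ℤ)).Countable := countable_closure hC₀c
    have hL₀L : L₀ ≤ L := (AddSubgroup.closure_le L).mpr hC₀L
    have hL₀d : Dense (f b '' (L₀ : Set (J →₀ ℤ))) := by
      refine hTd.mono ?_
      intro t ht
      exact ⟨g t, AddSubgroup.subset_closure ⟨t, ht, rfl⟩, hgT t ht⟩
    set Ann : Set (J →₀ ℤ) := {n | ∀ a ∈ L₀, pair n (h b j₀ j₁ a) = 0} with hAnn
    have hAnnc : Ann.Countable := countable_ann j₀ j₁ hb L₀ hL₀c hL₀d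
    -- for each `n` in `Ann` not trivial on `L`, choose a witness
    have hw : ∀ n : J →₀ ℤ, ∃ a ∈ L, (∃ a' ∈ L, pair n (h b j₀ j₁ a') ≠ 0) →
        pair n (h b j₀ j₁ a) ≠ 0 := by
      intro n
      by_cases hn : ∃ a' ∈ L, pair n (h b j₀ j₁ a') ≠ 0
      · obtain ⟨a', ha', hne⟩ := hn
        exact ⟨a', ha', fun _ => hne⟩
      · exact ⟨0, L.zero_mem, fun h => absurd h hn⟩
    choose w hwL hw using hw
    set L₁ := AddSubgroup.closure (C₀ ∪ w '' Ann) with hL₁
    have hL₁c : (L₁ : Set (J →₀ ℤ)).Countable := countable_closure (hC₀c.union (hAnnc.image w))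
    have hL₁L : L₁ ≤ L := by
      rw [hL₁, AddSubgroup.closure_le]
      rintro x (hx | ⟨n, -, rfl⟩)
      · exact hC₀L hx
      · exact hwL n
    refine ⟨L₁, hL₁c, hL₁L, ?_⟩
    rintro - ⟨l, hl, rfl⟩
    -- apply duality to the closure of `h(L₁)`
    have key : h b j₀ j₁ l ∈ (L₁.map (h b j₀ j₁)).topologicalClosure := by
      refine mem_closed_subgroup _ (AddSubgroup.isClosed_topologicalClosure _) _ ?_
      intro n hn
      have hn1 : ∀ a ∈ L₁, pair n (h b j₀ j₁ a) = 0 := by
        intro a ha
        exact hn _ (AddSubgroup.le_topologicalClosure _ ⟨a, ha, rfl⟩)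
      have hnAnn : n ∈ Ann := by
        intro a ha
        apply hn1
        exact AddSubgroup.closure_mono subset_union_left ha
      by_contra hne
      have := hw n ⟨l, hl, hne⟩
      apply this
      apply hn1
      exact AddSubgroup.subset_closure (Or.inr ⟨n, hnAnn, rfl⟩)
    have hcl : ((L₁.map (h b j₀ j₁)).topologicalClosure : Set (J → UnitAddCircle))
        = closure (h b j₀ j₁ '' (L₁ : Set (J →₀ ℤ))) := by
      rw [AddSubgroup.topologicalClosure_coe, AddSubgroup.coe_map]
    rw [← hcl]
    exact key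

/-- Every subgroup of `H` is separable. -/
lemma separable_subgroup (K : AddSubgroup (h b j₀ j₁).range) : SeparableSpace K := by
  classical
  obtain ⟨C, hCc, hCL, hcl⟩ := separable_image j₀ j₁ hb (K.comap (h b j₀ j₁).rangeRestrict)
  let e : K → (J → UnitAddCircle) := fun k => ((k : (h b j₀ j₁).range) : J → UnitAddCircle)
  have he : Topology.IsInducing e :=
    Topology.IsInducing.subtypeVal.comp Topology.IsInducing.subtypeVal
  let q : C → K := fun c => ⟨(h b j₀ j₁).rangeRestrict c.1, hCL c.2⟩
  have : Countable C := hCc.to_subtype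
  refine ⟨⟨Set.range q, Set.countable_range q, ?_⟩⟩
  intro k
  rw [he.closure_eq_preimage_closure_image, mem_preimage]
  obtain ⟨⟨y, a, rfl⟩, hk⟩ := k
  have h1 : h b j₀ j₁ a ∈ closure (h b j₀ j₁ '' C) := by
    apply hcl
    exact ⟨a, hk, rfl⟩
  refine closure_mono ?_ h1
  rintro - ⟨c, hc, rfl⟩
  exact ⟨q ⟨c, hc⟩, ⟨⟨c, hc⟩, rfl⟩, rfl⟩

/-- The closed non-separable subgroup of `ℝ × H`. -/
noncomputable def graph (b : J → ℝ) (j₀ j₁ : J) : AddSubgroup (ℝ × (h b j₀ j₁).range) :=
  ((f b).prod (h b j₀ j₁).rangeRestrict).range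

lemma isClosed_graph (h01 : j₀ ≠ j₁) :
    IsClosed ((graph b j₀ j₁ : AddSubgroup (ℝ × (h b j₀ j₁).range)) :
      Set (ℝ × (h b j₀ j₁).range)) := by
  classical
  rw [← closure_subset_iff_isClosed]
  rintro ⟨t, ⟨y, c, rfl⟩⟩ hy
  -- coordinates `j₀` and `j₁`
  have hcoord : ∀ j, (j = j₀ ∨ j = j₁) →
      ((b j * t : ℝ) : UnitAddCircle) = ((b j * f b c : ℝ) : UnitAddCircle) := by
    intro j hj
    have hclosed : IsClosed {p : ℝ × (h b j₀ j₁).range |
        ((b j * p.1 : ℝ) : UnitAddCircle) = (p.2 : J → UnitAddCircle) j} := by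
      apply isClosed_eq
      · exact (AddCircle.continuous_mk' (1 : ℝ)).comp (continuous_const.mul continuous_fst)
      · exact (continuous_apply j).comp (continuous_subtype_val.comp continuous_snd)
    have hsub : ((graph b j₀ j₁ : AddSubgroup (ℝ × (h b j₀ j₁).range)) :
        Set (ℝ × (h b j₀ j₁).range)) ⊆ {p : ℝ × (h b j₀ j₁).range |
        ((b j * p.1 : ℝ) : UnitAddCircle) = (p.2 : J → UnitAddCircle) j} := by
      rintro - ⟨a, rfl⟩
      change ((b j * f b a : ℝ) : UnitAddCircle) = h b j₀ j₁ a j
      rw [h_apply, psi, if_pos hj, add_zero]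
    have := closure_minimal hsub hclosed hy
    have h2 : ((b j * t : ℝ) : UnitAddCircle) = h b j₀ j₁ c j := this
    rw [h2, h_apply, psi, if_pos hj, add_zero]
  have hint : ∀ j, (j = j₀ ∨ j = j₁) → ∃ n : ℤ, (n : ℝ) = b j * (t - f b c) := by
    intro j hj
    have h3 := hcoord j hj
    rw [← sub_eq_zero, ← AddCircle.coe_sub, ← mul_sub] at h3
    exact (coe_eq_zero_iff _).mp h3
  have ht : t = f b c := by
    by_contra hne
    have hs : t - f b c ≠ 0 := sub_ne_zero.mpr hne
    obtain ⟨k, hk⟩ := hint j₀ (Or.inl rfl)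
    obtain ⟨l, hl⟩ := hint j₁ (Or.inr rfl)
    -- `l * b j₀ = k * b j₁`
    have hlin : (l : ℝ) * b j₀ - (k : ℝ) * b j₁ = 0 := by
      have : ((l : ℝ) * b j₀ - (k : ℝ) * b j₁) * (t - f b c) = 0 := by
        rw [hk, hl]; ring
      rcases mul_eq_zero.mp this with h | h
      · exact h
      · exact absurd h hs
    have hfz : f b (Finsupp.single j₀ l - Finsupp.single j₁ k) = 0 := by
      rw [map_sub, f_apply, f_apply, Finsupp.sum_single_index, Finsupp.sum_single_index]
      · exact hlin
      · simp
      · simp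
    have hz : Finsupp.single j₀ l - Finsupp.single j₁ k = (0 : J →₀ ℤ) := by
      apply f_injective hb
      rw [hfz, map_zero]
    have hl0 : l = 0 := by
      have := DFunLike.congr_fun hz j₀
      simpa [Finsupp.single_apply, h01, h01.symm] using this
    have hb1 : b j₁ ≠ 0 := hb.ne_zero j₁
    rw [hl0] at hl
    have : b j₁ * (t - f b c) = 0 := by rw [← hl]; simp
    rcases mul_eq_zero.mp this with h | h
    · exact hb1 h
    · exact hs h
  refine ⟨c, ?_⟩
  apply Prod.ext
  · exact ht.symm
  · rfl

omit hb in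
lemma not_separable_graph [Uncountable J] : ¬ SeparableSpace (graph b j₀ j₁) := by
  classical
  intro hsep
  obtain ⟨D, hDc, hDd⟩ := TopologicalSpace.exists_countable_dense (graph b j₀ j₁)
  have hpre : ∀ p : graph b j₀ j₁, ∃ a : J →₀ ℤ, ((f b).prod (h b j₀ j₁).rangeRestrict) a = p :=
    fun p => p.2
  choose s hs using hpre
  set S : Set J := (⋃ p ∈ D, (((s p).support : Finset J) : Set J)) ∪ {j₀, j₁} with hS
  have hSc : S.Countable := by
    refine Set.Countable.union (hDc.biUnion fun p _ => (s p).support.countable_toSet) ?_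
    exact Set.to_countable _
  obtain ⟨j, hj⟩ : ∃ j, j ∉ S := by
    by_contra hcon
    push Not at hcon
    have : (Set.univ : Set J).Countable := hSc.mono fun j _ => hcon j
    exact (not_countable (α := J)) (Set.countable_univ_iff.mp this)
  have hjne : ¬ (j = j₀ ∨ j = j₁) := by
    intro hcon
    apply hj
    rw [hS]
    right
    simpa using hcon
  -- the continuous map detecting coordinate `j`
  let F : graph b j₀ j₁ → UnitAddCircle := fun p =>
    ((p : ℝ × (h b j₀ j₁).range).2 : J → UnitAddCircle) j
      - ((b j * (p : ℝ × (h b j₀ j₁).range).1 : ℝ) : UnitAddCircle)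
  have hF : Continuous F := by
    apply Continuous.sub
    · exact (continuous_apply j).comp
        (continuous_subtype_val.comp (continuous_snd.comp continuous_subtype_val))
    · exact (AddCircle.continuous_mk' (1 : ℝ)).comp
        (continuous_const.mul (continuous_fst.comp continuous_subtype_val))
  have hFval : ∀ (a : J →₀ ℤ) (ha : ((f b).prod (h b j₀ j₁).rangeRestrict) a ∈ graph b j₀ j₁),
      F ⟨_, ha⟩ = a j • half := by
    intro a ha
    change h b j₀ j₁ a j - ((b j * f b a : ℝ) : UnitAddCircle) = _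
    rw [h_apply, psi, if_neg hjne]
    abel
  have hFD : ∀ p ∈ D, F p = 0 := by
    intro p hp
    have hmem : ((f b).prod (h b j₀ j₁).rangeRestrict) (s p) ∈ graph b j₀ j₁ := ⟨s p, rfl⟩
    have hpe : p = ⟨_, hmem⟩ := Subtype.ext (hs p).symm
    rw [hpe, hFval]
    have : (s p) j = 0 := by
      by_contra hne
      apply hj
      rw [hS]
      left
      simp only [mem_iUnion]
      exact ⟨p, hp, by simpa using hne⟩
    rw [this, zero_smul]
  have hF0 : F = fun _ => 0 := Continuous.ext_on hDd hF continuous_const (fun p hp => hFD p hp)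
  have hmem : ((f b).prod (h b j₀ j₁).rangeRestrict) (Finsupp.single j 1) ∈ graph b j₀ j₁ :=
    ⟨_, rfl⟩
  have h1 := hFval _ hmem
  rw [hF0] at h1
  simp only [Finsupp.single_eq_same, one_smul] at h1
  exact half_ne_zero h1.symm

end Construction

/-- There is an uncountable family of `ℚ`-linearly independent reals, indexed by a type in any
given universe. -/
lemma exists_family : ∃ (J : Type v) (_ : Uncountable J) (b : J → ℝ), LinearIndependent ℚ b := by
  let B := Module.Basis.ofVectorSpace ℚ ℝ
  refine ⟨ULift.{v} (Module.Basis.ofVectorSpaceIndex ℚ ℝ), ?_, fun j => B j.down, ?_⟩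
  · rw [← not_countable_iff]
    intro hcount
    have hc : Countable (Module.Basis.ofVectorSpaceIndex ℚ ℝ) :=
      (ULift.up_injective (α := Module.Basis.ofVectorSpaceIndex ℚ ℝ)).countable
    have : Countable ℝ := by
      exact Function.Injective.countable (f := B.repr) B.repr.injective
    exact not_countable (α := ℝ) this
  · exact B.linearIndependent.comp _ ULift.down_injective

/-- **The additive topological group `ℝ` is not S-separable.** -/
theorem result : ¬ SSeparable.{0, v} ℝ := by
  intro hS
  obtain ⟨J, hJ, b, hb⟩ := exists_family.{v}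
  obtain ⟨j₀, j₁, h01⟩ : ∃ j₀ j₁ : J, j₀ ≠ j₁ := by
    have : Nontrivial J := inferInstance
    exact exists_pair_ne J
  have := hS (h b j₀ j₁).range (fun K _ => separable_subgroup j₀ j₁ hb K)
    (graph b j₀ j₁) (isClosed_graph j₀ j₁ hb h01)
  exact not_separable_graph j₀ j₁ this

end Pool.Agent.Results.MP_67c6ba_gt.RealNotSSeparable
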